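import Pool.Agent.H935R3.LW.Stmts

/-! # `TaskNorm` of the project LAUGWITZ n = 3: simultaneous normal form -/

set_option autoImplicit false
open Matrix

namespace Pool.Agent.H662R3.LW

open Pool.Agent.H935R3.LW
open scoped MatrixOrder

theorem exists_sqrt (g : Matrix (Fin 3) (Fin 3) ℝ) (hg : g.PosDef) :
    ∃ S : Matrix (Fin 3) (Fin 3) ℝ, Sᵀ * S = g := by
  obtain ⟨S, hS⟩ := CStarAlgebra.nonneg_iff_eq_star_mul_self.mp hg.posSemidef.nonneg
  refine ⟨S, ?_⟩
  rw [hS, star_eq_conjTranspose, conjTranspose_eq_transpose_of_trivial]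

/-- orthogonal matrix with given third column -/
theorem exists_orth (y : Fin 3 → ℝ) (hy : ∑ i, y i ^ 2 = 1) :
    ∃ O : Matrix (Fin 3) (Fin 3) ℝ, Oᵀ * O = 1 ∧ ∀ i, O i 2 = y i := by
  let v : Fin 3 → EuclideanSpace ℝ (Fin 3) := fun _ => WithLp.toLp 2 y
  have hv : Orthonormal ℝ (({2} : Set (Fin 3)).domRestrict v) := by
    refine ⟨fun i => ?_, fun i j hij => absurd (Subsingleton.elim i j) hij⟩
    show ‖WithLp.toLp 2 y‖ = 1
    rw [EuclideanSpace.norm_eq]
    simp [hy]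
  obtain ⟨b, hb⟩ := hv.exists_orthonormalBasis_extension_of_card_eq (by simp)
  refine ⟨Matrix.of fun i j => b j i, ?_, fun i => ?_⟩
  · ext j k
    have h := orthonormal_iff_ite.1 b.orthonormal k j
    rw [PiLp.inner_apply] at h
    simp only [Matrix.mul_apply, transpose_apply, of_apply, Matrix.one_apply]
    rw [eq_comm] at h
    simp only [RCLike.inner_apply, conj_trivial] at h
    rw [← h]
    by_cases hjk : j = k <;> simp [hjk, eq_comm]
  · have := hb 2 rfl
    simp only [of_apply]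
    rw [this]

theorem exists_frame (g : Matrix (Fin 3) (Fin 3) ℝ) (x : E3) (f : ℝ) (hg : g.PosDef) (hf : 0 < f)
    (hx : ∑ i, ∑ j, g i j * x j * x i = f ^ 2) :
    ∃ R : Matrix (Fin 3) (Fin 3) ℝ, Rᵀ * g * R = 1 ∧ ∀ i, x i = f * R i 2 := by
  obtain ⟨S, hS⟩ := exists_sqrt g hg
  have hdet : S.det ≠ 0 := by
    intro h0
    have := hg.det_pos
    rw [← hS, det_mul, h0, mul_zero] at this
    exact lt_irrefl _ this
  have hSu : IsUnit S.det := isUnit_iff_ne_zero.2 hdet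
  set y : Fin 3 → ℝ := fun i => (S *ᵥ x) i / f with hy
  have hy1 : ∑ i, y i ^ 2 = 1 := by
    have h1 : ∑ i, (S *ᵥ x) i ^ 2 = f ^ 2 := by
      rw [← hx, ← hS]
      simp only [mulVec, dotProduct, Matrix.mul_apply, transpose_apply, Fin.sum_univ_three]
      ring
    simp only [hy, div_pow, ← Finset.sum_div, h1]
    exact div_self (by positivity)
  obtain ⟨O, hO, hO2⟩ := exists_orth y hy1
  refine ⟨S⁻¹ * O, ?_, fun i => ?_⟩
  · rw [transpose_mul, ← hS]
    have e : Oᵀ * S⁻¹ᵀ * (Sᵀ * S) * (S⁻¹ * O) = Oᵀ * (S⁻¹ᵀ * Sᵀ) * (S * S⁻¹) * O := by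
      simp only [Matrix.mul_assoc]
    rw [e, ← transpose_mul, mul_nonsing_inv _ hSu, transpose_one, Matrix.mul_one, Matrix.mul_one, hO]
  · have h1 : (S⁻¹ * O) i 2 = (S⁻¹ *ᵥ y) i := by
      simp only [Matrix.mul_apply, mulVec, dotProduct]
      exact Finset.sum_congr rfl fun j _ => by rw [hO2]
    have h2 : y = f⁻¹ • (S *ᵥ x) := by
      funext i
      simp [hy, div_eq_inv_mul]
    rw [h1, h2, mulVec_smul, mulVec_mulVec, nonsing_inv_mul _ hSu, one_mulVec, Pi.smul_apply,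
      smul_eq_mul, mul_inv_cancel_left₀ hf.ne']

/-- trilinear form -/
def T (c : A3) (X Y Z : Fin 3 → ℝ) : ℝ := ∑ a, ∑ b, ∑ k, X a * Y b * Z k * c a b k

theorem T_add1 (c : A3) (u v : ℝ) (X X' Y Z : Fin 3 → ℝ) :
    T c (fun i => u * X i + v * X' i) Y Z = u * T c X Y Z + v * T c X' Y Z := by
  simp only [T, Finset.mul_sum, ← Finset.sum_add_distrib]
  refine Finset.sum_congr rfl fun a _ => Finset.sum_congr rfl fun b _ =>
    Finset.sum_congr rfl fun k _ => ?_
  ring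

theorem T_add2 (c : A3) (u v : ℝ) (X X' Y Z : Fin 3 → ℝ) :
    T c Y (fun i => u * X i + v * X' i) Z = u * T c Y X Z + v * T c Y X' Z := by
  simp only [T, Finset.mul_sum, ← Finset.sum_add_distrib]
  refine Finset.sum_congr rfl fun a _ => Finset.sum_congr rfl fun b _ =>
    Finset.sum_congr rfl fun k _ => ?_
  ring

theorem T_add3 (c : A3) (u v : ℝ) (X X' Y Z : Fin 3 → ℝ) :
    T c Y Z (fun i => u * X i + v * X' i) = u * T c Y Z X + v * T c Y Z X' := by
  simp only [T, Finset.mul_sum, ← Finset.sum_add_distrib]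
  refine Finset.sum_congr rfl fun a _ => Finset.sum_congr rfl fun b _ =>
    Finset.sum_congr rfl fun k _ => ?_
  ring

theorem T_swap12 (c : A3) (h : ∀ i j k, c i j k = c j i k) (X Y Z : Fin 3 → ℝ) :
    T c X Y Z = T c Y X Z := by
  unfold T
  rw [Finset.sum_comm]
  refine Finset.sum_congr rfl fun a _ => Finset.sum_congr rfl fun b _ =>
    Finset.sum_congr rfl fun k _ => ?_
  rw [h b a k]
  ring

theorem T_swap23 (c : A3) (h : ∀ i j k, c i j k = c i k j) (X Y Z : Fin 3 → ℝ) :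
    T c X Y Z = T c X Z Y := by
  unfold T
  refine Finset.sum_congr rfl fun a _ => ?_
  rw [Finset.sum_comm]
  refine Finset.sum_congr rfl fun b _ => Finset.sum_congr rfl fun k _ => ?_
  rw [h a k b]
  ring

theorem prod_sum (A B : Fin 3 → Fin 3 → ℝ) (X Y Z W : Fin 3 → ℝ) :
    ∑ i, ∑ j, ∑ k, ∑ l, X i * Y j * Z k * W l * (A i k * B j l) =
      (∑ i, ∑ k, X i * Z k * A i k) * ∑ j, ∑ l, Y j * W l * B j l := by
  rw [Finset.sum_mul]
  refine Finset.sum_congr rfl fun i _ => ?_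
  rw [Finset.sum_comm, Finset.sum_mul]
  refine Finset.sum_congr rfl fun k _ => ?_
  rw [Finset.mul_sum]
  refine Finset.sum_congr rfl fun j _ => ?_
  rw [Finset.mul_sum]
  refine Finset.sum_congr rfl fun l _ => ?_
  ring

/-- flatness in an orthonormal frame -/
theorem flat_frame (h : Matrix (Fin 3) (Fin 3) ℝ) (R : Matrix (Fin 3) (Fin 3) ℝ)
    (hR : h = R * Rᵀ) (c : A3)
    (hflat : ∀ i j k l, ∑ p, ∑ q, h p q * (c i k p * c j l q - c i l p * c j k q) = 0)
    (X Y Z W : Fin 3 → ℝ) :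
    ∑ s, (T c X Z (fun i => R i s) * T c Y W (fun i => R i s) -
      T c X W (fun i => R i s) * T c Y Z (fun i => R i s)) = 0 := by
  set C : Fin 3 → Fin 3 → Fin 3 → ℝ := fun s i k => ∑ p, R p s * c i k p with hC
  have h1 : ∀ i j k l, ∑ s, (C s i k * C s j l - C s i l * C s j k) = 0 := by
    intro i j k l
    rw [← hflat i j k l, hR]
    simp only [hC, Matrix.mul_apply, transpose_apply, Fin.sum_univ_three]
    ring
  have hT : ∀ (U V : Fin 3 → ℝ) (s : Fin 3), T c U V (fun i => R i s) =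
      ∑ i, ∑ k, U i * V k * C s i k := by
    intro U V s
    simp only [T, hC, Finset.mul_sum]
    refine Finset.sum_congr rfl fun a _ => Finset.sum_congr rfl fun b _ =>
      Finset.sum_congr rfl fun k _ => ?_
    ring
  have h2 : ∑ i, ∑ j, ∑ k, ∑ l, X i * Y j * Z k * W l *
      (∑ s, (C s i k * C s j l - C s i l * C s j k)) = 0 := by
    simp only [h1, mul_zero, Finset.sum_const_zero]
  have h3 : ∀ s, T c X Z (fun i => R i s) * T c Y W (fun i => R i s) -
      T c X W (fun i => R i s) * T c Y Z (fun i => R i s) =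
      ∑ i, ∑ j, ∑ k, ∑ l, X i * Y j * Z k * W l * (C s i k * C s j l - C s i l * C s j k) := by
    intro s
    rw [hT, hT, hT, hT, ← prod_sum, ← prod_sum, ← Finset.sum_sub_distrib]
    refine Finset.sum_congr rfl fun i _ => ?_
    rw [← Finset.sum_sub_distrib]
    refine Finset.sum_congr rfl fun j _ => ?_
    have e : ∑ k, ∑ l, X i * Y j * W k * Z l * (C s i k * C s j l) =
        ∑ k, ∑ l, X i * Y j * Z k * W l * (C s i l * C s j k) := by
      rw [Finset.sum_comm]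
      refine Finset.sum_congr rfl fun k _ => Finset.sum_congr rfl fun l _ => ?_
      ring
    rw [e, ← Finset.sum_sub_distrib]
    refine Finset.sum_congr rfl fun k _ => ?_
    rw [← Finset.sum_sub_distrib]
    refine Finset.sum_congr rfl fun l _ => ?_
    ring
  rw [← h2]
  simp only [h3]
  rw [Finset.sum_comm]
  refine Finset.sum_congr rfl fun i _ => ?_
  rw [Finset.sum_comm]
  refine Finset.sum_congr rfl fun j _ => ?_
  rw [Finset.sum_comm]
  refine Finset.sum_congr rfl fun k _ => ?_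
  rw [Finset.sum_comm]
  refine Finset.sum_congr rfl fun l _ => ?_
  rw [Finset.mul_sum]

theorem arg_eq (X Y : ℝ) : Real.cos (Complex.arg ⟨X, Y⟩) * Y = Real.sin (Complex.arg ⟨X, Y⟩) * X := by
  have c1 := Complex.norm_mul_cos_arg (⟨X, Y⟩ : ℂ)
  have c2 := Complex.norm_mul_sin_arg (⟨X, Y⟩ : ℂ)
  simp only at c1 c2
  calc Real.cos (Complex.arg ⟨X, Y⟩) * Y
      = Real.cos (Complex.arg ⟨X, Y⟩) * (‖(⟨X, Y⟩ : ℂ)‖ * Real.sin (Complex.arg ⟨X, Y⟩)) := by
        rw [c2]
    _ = Real.sin (Complex.arg ⟨X, Y⟩) * (‖(⟨X, Y⟩ : ℂ)‖ * Real.cos (Complex.arg ⟨X, Y⟩)) := by ring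
    _ = Real.sin (Complex.arg ⟨X, Y⟩) * X := by rw [c1]

theorem exists_angle (X1 Y1 X2 Y2 : ℝ) (h : X1 * Y2 = X2 * Y1) :
    ∃ θ : ℝ, Real.cos (2 * θ) * Y1 = Real.sin (2 * θ) * X1 ∧
      Real.cos (2 * θ) * Y2 = Real.sin (2 * θ) * X2 := by
  by_cases h0 : X1 = 0 ∧ Y1 = 0
  · obtain ⟨rfl, rfl⟩ := h0
    refine ⟨Complex.arg ⟨X2, Y2⟩ / 2, by simp, ?_⟩
    rw [mul_div_cancel₀ _ two_ne_zero]
    exact arg_eq X2 Y2
  · refine ⟨Complex.arg ⟨X1, Y1⟩ / 2, ?_, ?_⟩
    · rw [mul_div_cancel₀ _ two_ne_zero]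
      exact arg_eq X1 Y1
    · rw [mul_div_cancel₀ _ two_ne_zero]
      have c1 := Complex.norm_mul_cos_arg (⟨X1, Y1⟩ : ℂ)
      have c2 := Complex.norm_mul_sin_arg (⟨X1, Y1⟩ : ℂ)
      simp only at c1 c2
      have hn : ‖(⟨X1, Y1⟩ : ℂ)‖ ≠ 0 := by
        rw [norm_ne_zero_iff]
        intro hz
        apply h0
        rw [Complex.ext_iff] at hz
        exact ⟨hz.1, hz.2⟩
      apply mul_left_cancel₀ hn
      rw [← mul_assoc, ← mul_assoc, c1, c2]
      linarith

theorem taskNorm : TaskNorm := by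
  intro g c x f hg hc1 hc2 hflat hcx hf hx
  obtain ⟨R, hR, hRx⟩ := exists_frame g x f hg hf hx
  have hinv : g⁻¹ = R * Rᵀ := by
    have h1 : (R * Rᵀ) * g = 1 := by
      have h2 : R * (Rᵀ * g) = 1 := by
        have h3 : (Rᵀ * g) * R = 1 := hR
        exact mul_eq_one_comm.1 h3
      rw [Matrix.mul_assoc]
      exact h2
    exact inv_eq_left_inv h1
  -- the three vectors of the frame
  set r0 : Fin 3 → ℝ := fun i => R i 0 with hr0
  set r1 : Fin 3 → ℝ := fun i => R i 1 with hr1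
  set r2 : Fin 3 → ℝ := fun i => R i 2 with hr2
  have hT2 : ∀ X Y : Fin 3 → ℝ, T c X Y r2 = 0 := by
    intro X Y
    have h1 : T c X Y (fun i => f * r2 i + 0 * r2 i) = 0 := by
      have h2 : (fun i => f * r2 i + 0 * r2 i) = x := by
        funext i
        rw [hRx i]
        simp [hr2]
      rw [h2]
      unfold T
      refine Finset.sum_eq_zero fun a _ => Finset.sum_eq_zero fun b _ => ?_
      calc ∑ k, X a * Y b * x k * c a b k = X a * Y b * ∑ k, c a b k * x k := by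
            rw [Finset.mul_sum]
            exact Finset.sum_congr rfl fun k _ => by ring
        _ = 0 := by rw [hcx, mul_zero]
    rw [T_add3, zero_mul, add_zero] at h1
    exact (mul_eq_zero.1 h1).resolve_left hf.ne'
  have hfl := flat_frame g⁻¹ R hinv c hflat r0 r1 r0 r1
  rw [Fin.sum_univ_three] at hfl
  change (T c r0 r0 r0 * T c r1 r1 r0 - T c r0 r1 r0 * T c r1 r0 r0) +
    (T c r0 r0 r1 * T c r1 r1 r1 - T c r0 r1 r1 * T c r1 r0 r1) +
    (T c r0 r0 r2 * T c r1 r1 r2 - T c r0 r1 r2 * T c r1 r0 r2) = 0 at hfl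
  simp only [hT2] at hfl
  have s1 : T c r1 r1 r0 = T c r0 r1 r1 := by
    rw [T_swap23 c hc2 r1 r1 r0, T_swap12 c hc1 r1 r0 r1]
  have s2 : T c r0 r1 r0 = T c r0 r0 r1 := T_swap23 c hc2 r0 r1 r0
  have s3 : T c r1 r0 r0 = T c r0 r0 r1 := by
    rw [T_swap12 c hc1 r1 r0 r0, T_swap23 c hc2 r0 r1 r0]
  have s4 : T c r1 r0 r1 = T c r0 r1 r1 := T_swap12 c hc1 r1 r0 r1
  rw [s1, s2, s3, s4] at hfl
  obtain ⟨θ, hθ1, hθ2⟩ := exists_angle ((T c r0 r0 r0 - T c r0 r1 r1) / 2) (T c r0 r0 r1)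
    ((T c r0 r0 r1 - T c r1 r1 r1) / 2) (T c r0 r1 r1) (by linarith)
  rw [Real.cos_two_mul, Real.sin_two_mul] at hθ1 hθ2
  have hcs := Real.sin_sq_add_cos_sq θ
  set u := Real.cos θ with hu
  set v := Real.sin θ with hv
  set Q : Matrix (Fin 3) (Fin 3) ℝ := !![u, -v, 0; v, u, 0; 0, 0, 1] with hQ
  have hQQ : Qᵀ * Q = 1 := by
    ext i j
    fin_cases i <;> fin_cases j <;>
      simp [hQ, Matrix.mul_apply, Fin.sum_univ_three] <;> linarith
  have hP : (R * Q)ᵀ * g * (R * Q) = 1 := by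
    rw [transpose_mul]
    have e : Qᵀ * Rᵀ * g * (R * Q) = Qᵀ * (Rᵀ * g * R) * Q := by
      simp only [Matrix.mul_assoc]
    rw [e, hR, Matrix.mul_one, hQQ]
  have hp0 : ∀ i, (R * Q) i 0 = u * r0 i + v * r1 i := by
    intro i
    simp [hQ, Matrix.mul_apply, Fin.sum_univ_three, hr0, hr1]
    ring
  have hp1 : ∀ i, (R * Q) i 1 = -v * r0 i + u * r1 i := by
    intro i
    simp [hQ, Matrix.mul_apply, Fin.sum_univ_three, hr0, hr1]
    ring
  have hp2 : ∀ i, (R * Q) i 2 = r2 i := by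
    intro i
    simp [hQ, Matrix.mul_apply, Fin.sum_univ_three, hr2]
  have k0 : T c r0 (fun i => u * r0 i + v * r1 i) (fun i => -v * r0 i + u * r1 i) = 0 := by
    rw [T_add2, T_add3, T_add3, s2]
    linear_combination hθ1 - T c r0 r0 r1 * hcs
  have k1 : T c r1 (fun i => u * r0 i + v * r1 i) (fun i => -v * r0 i + u * r1 i) = 0 := by
    rw [T_add2, T_add3, T_add3, s1, s3, s4]
    linear_combination hθ2 - T c r0 r1 r1 * hcs
  refine ⟨R * Q, ?_, hP, ?_, ?_, ?_⟩
  · intro h0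
    have := congrArg Matrix.det hP
    rw [det_mul, det_mul, h0, mul_zero, det_one] at this
    exact zero_ne_one this
  · intro i
    rw [hp2, hRx]
  · have e : ∑ a, ∑ b, ∑ k, (R * Q) a 0 * (R * Q) b 0 * (R * Q) k 1 * c a b k =
        T c (fun i => u * r0 i + v * r1 i) (fun i => u * r0 i + v * r1 i)
          (fun i => -v * r0 i + u * r1 i) := by
      unfold T
      simp only [hp0, hp1]
    rw [e, T_add1, k0, k1]
    ring
  · have e : ∑ a, ∑ b, ∑ k, (R * Q) a 0 * (R * Q) b 1 * (R * Q) k 1 * c a b k =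
        T c (fun i => -v * r0 i + u * r1 i) (fun i => u * r0 i + v * r1 i)
          (fun i => -v * r0 i + u * r1 i) := by
      rw [← T_swap12 c hc1]
      unfold T
      simp only [hp0, hp1]
    rw [e, T_add1, k0, k1]
    ring

end Pool.Agent.H662R3.LW
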